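import Pool.Agent.Helper32.B4.St

set_option autoImplicit false

open Metric Set Filter Topology MeasureTheory
open scoped ComplexConjugate Interval

namespace Pool.Agent.Helper2.B4

open Pool.Agent.Helper32.B4 Pool.Agent.Helper32.DX Pool.Agent.Helper64.C3

theorem ii_poly_sn {θ : ℝ → ℝ} (hθ : Measurable θ) (p : ℝ → ℝ) (hp : Continuous p) (C : ℝ)
    (hC : ∀ u ∈ Ι (0:ℝ) 1, |p u| ≤ C) :
    IntervalIntegrable (fun u => p u * sn θ u ^ 2) volume 0 1 := by
  refine ii_of_bdd (C := C) ?_ ?_
  · exact ((hp.measurable).mul ((meas_sn hθ).pow_const 2)).aestronglyMeasurable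
  · intro u hu
    rw [Real.norm_eq_abs, abs_mul, abs_pow]
    have h1 := abs_sn_le θ u
    have h2 : |sn θ u| ^ 2 ≤ 1 := by
      have := abs_nonneg (sn θ u)
      nlinarith
    have h3 := hC u hu
    have h4 := abs_nonneg (p u)
    have h5 : 0 ≤ |sn θ u| ^ 2 := by positivity
    nlinarith

theorem hFD : StRE → StFD := by
  intro hRE θ hθ
  obtain ⟨h1, h2, h3, h4, h5⟩ := hRE θ hθ
  have hint : (∫ u in (0:ℝ)..1, (16 * u ^ 2 - 8 * u) * sn θ u ^ 2) = 16 * fZ θ - fq θ := by
    have e1 : IntervalIntegrable (fun u => 16 * (u * sn θ u ^ 2)) volume 0 1 := by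
      refine (ii_poly_sn hθ (fun u => u) continuous_id 1 ?_).const_mul 16
      intro u hu
      rw [uIoc_of_le zero_le_one] at hu
      rw [abs_of_pos hu.1]
      exact hu.2
    have e2 : IntervalIntegrable (fun u => (24 * u - 16 * u ^ 2) * sn θ u ^ 2) volume 0 1 := by
      refine ii_poly_sn hθ (fun u => 24 * u - 16 * u ^ 2) (by fun_prop) 40 ?_
      intro u hu
      rw [uIoc_of_le zero_le_one] at hu
      have := hu.1
      have := hu.2
      rw [abs_le]
      constructor <;> nlinarith
    unfold fZ fq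
    rw [← intervalIntegral.integral_const_mul, ← intervalIntegral.integral_sub e1 e2]
    congr 1
    funext u
    ring
  rw [hint] at h5
  constructor
  · have hre : (A4 θ).re = -((c0 θ 0).re ^ 3 - 3 * (c0 θ 0).re * (c0 θ 0).im ^ 2) +
        2 * ((c0 θ 0).re * (c1 θ 0).re - (c0 θ 0).im * (c1 θ 0).im) - (c2 θ 0).re := by
      unfold A4
      simp only [Complex.sub_re, Complex.add_re, Complex.neg_re, Complex.mul_re, Complex.mul_im,
        pow_succ, pow_zero, one_mul, Complex.re_ofNat, Complex.im_ofNat]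
      ring
    rw [hre, h1, h2, h3, h4, h5]
    unfold FF
    ring
  · unfold A2
    rw [Complex.neg_re, h1]
    ring

end Pool.Agent.Helper2.B4
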