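import Pool.Agent.Helper32.B4.St

set_option autoImplicit false

open Metric Set Filter Topology MeasureTheory
open scoped ComplexConjugate Interval

namespace Pool.Agent.Helper2.B4

open Pool.Agent.Helper32.B4 Pool.Agent.Helper32.DX Pool.Agent.Helper64.C3

/-- measurable and bounded on the unit interval -/
def Bm (f : ℝ → ℝ) : Prop := Measurable f ∧ ∃ C : ℝ, ∀ u ∈ Icc (0:ℝ) 1, |f u| ≤ C

theorem Bm.mul {f g : ℝ → ℝ} (hf : Bm f) (hg : Bm g) : Bm (fun u => f u * g u) := by
  obtain ⟨mf, C, hC⟩ := hf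
  obtain ⟨mg, D, hD⟩ := hg
  refine ⟨mf.mul mg, C * D, fun u hu => ?_⟩
  rw [abs_mul]
  exact mul_le_mul (hC u hu) (hD u hu) (abs_nonneg _) ((abs_nonneg _).trans (hC u hu))

theorem Bm.add {f g : ℝ → ℝ} (hf : Bm f) (hg : Bm g) : Bm (fun u => f u + g u) := by
  obtain ⟨mf, C, hC⟩ := hf
  obtain ⟨mg, D, hD⟩ := hg
  exact ⟨mf.add mg, C + D, fun u hu => (abs_add_le _ _).trans (add_le_add (hC u hu) (hD u hu))⟩

theorem Bm.cont {f : ℝ → ℝ} (hf : Continuous f) : Bm f := by
  refine ⟨hf.measurable, ?_⟩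
  obtain ⟨C, hC⟩ := isCompact_Icc.exists_bound_of_continuousOn (s := Icc (0:ℝ) 1) hf.continuousOn
  exact ⟨C, fun u hu => by simpa using hC u hu⟩

theorem Bm.nu {θ : ℝ → ℝ} (hθ : Measurable θ) : Bm (nu θ) :=
  ⟨meas_nu hθ, 2, fun u _ => by
    rw [abs_of_nonneg (nu_nonneg θ u)]
    exact nu_le θ u⟩

theorem Bm.sn {θ : ℝ → ℝ} (hθ : Measurable θ) : Bm (sn θ) :=
  ⟨meas_sn hθ, 1, fun u _ => abs_sn_le θ u⟩

theorem Bm.cs {θ : ℝ → ℝ} (hθ : Measurable θ) : Bm (cs θ) :=
  ⟨meas_cs hθ, 1, fun u _ => abs_cs_le θ u⟩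

theorem Bm.ii {f : ℝ → ℝ} (hf : Bm f) : IntervalIntegrable f volume 0 1 := by
  obtain ⟨mf, C, hC⟩ := hf
  refine ii_of_bdd (C := C) mf.aestronglyMeasurable (fun u hu => ?_)
  rw [uIoc_of_le zero_le_one] at hu
  exact hC u ⟨hu.1.le, hu.2⟩

/-- weighted Cauchy-Schwarz inequality -/
theorem wcs {w g h : ℝ → ℝ} (hw : Bm w) (hg : Bm g) (hh : Bm h)
    (h0 : ∀ u ∈ Icc (0:ℝ) 1, 0 ≤ w u) :
    (∫ u in (0:ℝ)..1, w u * (g u * h u)) ^ 2 ≤
      (∫ u in (0:ℝ)..1, w u * (g u * g u)) * ∫ u in (0:ℝ)..1, w u * (h u * h u) := by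
  set a := ∫ u in (0:ℝ)..1, w u * (g u * g u) with ha
  set b := ∫ u in (0:ℝ)..1, w u * (g u * h u) with hb
  set c := ∫ u in (0:ℝ)..1, w u * (h u * h u) with hc
  have key : ∀ x : ℝ, 0 ≤ a * (x * x) + (2 * b) * x + c := by
    intro x
    have h1 : 0 ≤ ∫ u in (0:ℝ)..1, w u * ((x * g u + h u) * (x * g u + h u)) :=
      intervalIntegral.integral_nonneg zero_le_one
        (fun u hu => mul_nonneg (h0 u hu) (mul_self_nonneg _))
    have e1 := (hw.mul (hg.mul hg)).ii
    have e2 := (hw.mul (hg.mul hh)).ii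
    have e3 := (hw.mul (hh.mul hh)).ii
    have h2 : (∫ u in (0:ℝ)..1, w u * ((x * g u + h u) * (x * g u + h u))) =
        a * (x * x) + (2 * b) * x + c := by
      have h3 : (fun u => w u * ((x * g u + h u) * (x * g u + h u))) =
          fun u => ((x * x) * (w u * (g u * g u)) + (2 * x) * (w u * (g u * h u))) +
            w u * (h u * h u) := by
        funext u
        ring
      rw [h3, intervalIntegral.integral_add ((e1.const_mul _).add (e2.const_mul _)) e3,
        intervalIntegral.integral_add (e1.const_mul _) (e2.const_mul _),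
        intervalIntegral.integral_const_mul, intervalIntegral.integral_const_mul, ← ha, ← hb, ← hc]
      ring
    linarith
  have hd := discrim_le_zero key
  unfold discrim at hd
  nlinarith

theorem one_Bm : Bm (fun _ => (1:ℝ)) := Bm.cont continuous_const

theorem pos_part_int :
    (∫ u in (0:ℝ)..1, (1:ℝ) * (max (37 * u - 21) 0 * max (37 * u - 21) 0)) = 4096 / 111 := by
  have hc : Continuous (fun u : ℝ => (1:ℝ) * (max (37 * u - 21) 0 * max (37 * u - 21) 0)) := by
    fun_prop
  rw [← intervalIntegral.integral_add_adjacent_intervals (b := (21:ℝ) / 37)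
    (hc.intervalIntegrable _ _) (hc.intervalIntegrable _ _)]
  have h1 : (∫ u in (0:ℝ)..(21 / 37), (1:ℝ) * (max (37 * u - 21) 0 * max (37 * u - 21) 0)) = 0 := by
    rw [intervalIntegral.integral_congr (g := fun _ => (0:ℝ))]
    · simp
    · intro u hu
      rw [uIcc_of_le (by norm_num)] at hu
      have : 37 * u - 21 ≤ 0 := by
        have := hu.2
        linarith
      simp [max_eq_right this]
  have h2 : (∫ u in ((21:ℝ) / 37)..1, (1:ℝ) * (max (37 * u - 21) 0 * max (37 * u - 21) 0)) =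
      ∫ u in ((21:ℝ) / 37)..1, (37 * u - 21) ^ 2 := by
    apply intervalIntegral.integral_congr
    intro u hu
    rw [uIcc_of_le (by norm_num)] at hu
    have : 0 ≤ 37 * u - 21 := by
      have := hu.1
      linarith
    simp only [max_eq_left this]
    ring
  rw [h1, h2, zero_add]
  have h3 : ∀ u : ℝ, HasDerivAt (fun u : ℝ => (37 * u - 21) ^ 3 / 111) ((37 * u - 21) ^ 2) u := by
    intro u
    have h4 : HasDerivAt (fun u : ℝ => 37 * u - 21) (37 * 1) u :=
      ((hasDerivAt_id u).const_mul 37).sub_const 21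
    have h5 := (h4.pow 3).div_const 111
    have h6 : (37 * u - 21) ^ 2 = (3 : ℕ) * (37 * u - 21) ^ (3 - 1) * (37 * 1) / 111 := by
      push_cast
      ring
    rw [h6]
    exact h5
  rw [intervalIntegral.integral_eq_sub_of_hasDerivAt (fun u _ => h3 u)]
  · norm_num
  · exact Continuous.intervalIntegrable (by fun_prop) _ _

theorem hIB : StIB := by
  intro θ hθ
  have hν := Bm.nu hθ
  have hs := Bm.sn hθ
  have hcs := Bm.cs hθ
  have hu : Bm (fun u : ℝ => u) := Bm.cont continuous_id
  have p1 : ∀ u ∈ Icc (0:ℝ) 1, 0 ≤ (fun _ : ℝ => (1:ℝ)) u := fun u _ => zero_le_one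
  refine ⟨?_, ?_, ?_, ?_, ?_, ?_⟩
  · have h := wcs one_Bm one_Bm hν p1
    simp only [one_mul, intervalIntegral.integral_const, sub_zero, smul_eq_mul, mul_one] at h
    unfold fD fN
    calc (∫ u in (0:ℝ)..1, nu θ u) ^ 2 ≤ _ := h
      _ = ∫ u in (0:ℝ)..1, nu θ u ^ 2 := by
        congr 1
        funext u
        ring
  · have h := wcs hu one_Bm hν (fun u hu => hu.1)
    simp only [one_mul, mul_one] at h
    rw [integral_id] at h
    have e : fU θ = ∫ u in (0:ℝ)..1, u * (nu θ u * nu θ u) := by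
      unfold fU
      congr 1
      funext u
      ring
    rw [e]
    unfold fM
    linarith
  · have h := wcs hν (hu.mul hs) one_Bm (fun u _ => nu_nonneg θ u)
    have e1 : fJ θ = ∫ u in (0:ℝ)..1, nu θ u * (u * sn θ u * 1) := by
      unfold fJ
      congr 1
      funext u
      ring
    have e2 : fA θ = ∫ u in (0:ℝ)..1, nu θ u * (u * sn θ u * (u * sn θ u)) := by
      unfold fA
      congr 1
      funext u
      ring
    have e3 : fD θ = ∫ u in (0:ℝ)..1, nu θ u * (1 * 1) := by
      unfold fD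
      congr 1
      funext u
      ring
    rw [e1, e2, e3]
    exact h
  · have h := wcs one_Bm one_Bm hs p1
    simp only [one_mul, intervalIntegral.integral_const, sub_zero, smul_eq_mul, mul_one] at h
    unfold fY fS
    calc (∫ u in (0:ℝ)..1, sn θ u) ^ 2 ≤ _ := h
      _ = ∫ u in (0:ℝ)..1, sn θ u ^ 2 := by
        congr 1
        funext u
        ring
  · have h := wcs one_Bm hu (hs.mul hcs) p1
    have e1 : fT θ = ∫ u in (0:ℝ)..1, (1:ℝ) * (u * (sn θ u * cs θ u)) := by
      unfold fT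
      congr 1
      funext u
      ring
    have e2 : (∫ u in (0:ℝ)..1, (1:ℝ) * (u * u)) = 1 / 3 := by
      have : (fun u : ℝ => (1:ℝ) * (u * u)) = fun u => u ^ 2 := by
        funext u
        ring
      rw [this, integral_pow]
      norm_num
    have e3 : (∫ u in (0:ℝ)..1, (1:ℝ) * (sn θ u * cs θ u * (sn θ u * cs θ u))) ≤ fS θ := by
      unfold fS
      refine intervalIntegral.integral_mono_on zero_le_one
        (one_Bm.mul ((hs.mul hcs).mul (hs.mul hcs))).ii ?_ ?_
      · have := (hs.mul hs).ii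
        have e : (fun u => sn θ u ^ 2) = fun u => sn θ u * sn θ u := by
          funext u
          ring
        rw [e]
        exact this
      · intro u _
        have h1 := abs_cs_le θ u
        have h2 : cs θ u ^ 2 ≤ 1 := by
          rw [← sq_abs]
          have := abs_nonneg (cs θ u)
          nlinarith
        have h3 := sq_nonneg (sn θ u)
        nlinarith
    rw [← e1, e2] at h
    linarith
  · have hp : Bm (fun u : ℝ => max (37 * u - 21) 0) := Bm.cont (by fun_prop)
    have h := wcs one_Bm hp hν p1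
    rw [pos_part_int] at h
    have e1 : (∫ u in (0:ℝ)..1, (1:ℝ) * (nu θ u * nu θ u)) = fN θ := by
      unfold fN
      congr 1
      funext u
      ring
    rw [e1] at h
    have hN : 0 ≤ fN θ := intervalIntegral.integral_nonneg zero_le_one (fun u _ => sq_nonneg _)
    have h6 : (∫ u in (0:ℝ)..1, (1:ℝ) * (max (37 * u - 21) 0 * nu θ u)) ≤
        6.08 * Real.sqrt (fN θ) := by
      have h7 : (∫ u in (0:ℝ)..1, (1:ℝ) * (max (37 * u - 21) 0 * nu θ u)) ^ 2 ≤
          (6.08 * Real.sqrt (fN θ)) ^ 2 := by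
        rw [mul_pow, Real.sq_sqrt hN]
        nlinarith
      have h8 : 0 ≤ 6.08 * Real.sqrt (fN θ) := by positivity
      exact (le_abs_self _).trans (abs_le_of_sq_le_sq h7 h8)
    refine le_trans ?_ h6
    have e2 : 37 * fM θ - 21 * fD θ = ∫ u in (0:ℝ)..1, (37 * (u * nu θ u) - 21 * nu θ u) := by
      rw [intervalIntegral.integral_sub ((hu.mul hν).ii.const_mul 37) (hν.ii.const_mul 21),
        intervalIntegral.integral_const_mul, intervalIntegral.integral_const_mul]
      rfl
    rw [e2]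
    refine intervalIntegral.integral_mono_on zero_le_one
      (((hu.mul hν).ii.const_mul 37).sub (hν.ii.const_mul 21))
      (one_Bm.mul (hp.mul hν)).ii ?_
    intro u _
    have h1 := nu_nonneg θ u
    have h2 : 37 * u - 21 ≤ max (37 * u - 21) 0 := le_max_left _ _
    nlinarith

end Pool.Agent.Helper2.B4
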